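import Pool.Agent.helper57.LQ.SpecB

/-! # Row lq:P3D (MP_ebc808_nt) -/

set_option autoImplicit false

open Finset PowerSeries

noncomputable section

namespace Pool.Agent.LQ

theorem P3D_coeff (n : ℕ) (f : FF) : coeff n (P3 f) = if 3 ∣ n then 0 else coeff n f := by
  unfold P3
  rw [coeff_mk]

theorem P3D_add (f g : FF) : P3 (f + g) = P3 f + P3 g := by
  ext n
  rw [map_add, P3D_coeff, P3D_coeff, P3D_coeff, map_add]
  split_ifs
  · rw [add_zero]
  · rfl

theorem P3D_zero : P3 (0 : FF) = 0 := by
  ext n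
  rw [P3D_coeff, map_zero, ite_self]

theorem P3D_sum (s : Finset ℕ) (f : ℕ → FF) : P3 (∑ i ∈ s, f i) = ∑ i ∈ s, P3 (f i) := by
  classical
  induction s using Finset.induction_on with
  | empty => simp [P3D_zero]
  | insert a s ha ih => rw [Finset.sum_insert ha, Finset.sum_insert ha, P3D_add, ih]

theorem P3D_cls (f : FF) (i : ℕ) (h : ∀ m, coeff m f ≠ 0 → m % 3 = i % 3) :
    P3 f = if 3 ∣ i then 0 else f := by
  ext n
  rw [P3D_coeff]
  by_cases hc : coeff n f = 0
  · rw [hc, ite_self]
    split_ifs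
    · rw [map_zero]
    · rw [hc]
  · have h1 := h n hc
    by_cases hi : 3 ∣ i
    · rw [if_pos hi, if_pos (by omega), map_zero]
    · rw [if_neg hi, if_neg (by omega)]

theorem P3D_prod (hTGR : TGR_stmt) (i k : ℕ) (c : ℕ) (m : ℕ)
    (h : coeff m (tt ^ i * (ex 9 DD) ^ k * (c : FF)) ≠ 0) : m % 3 = i % 3 := by
  have h0 : coeff m (tt ^ i * (ex 9 DD) ^ k) ≠ 0 := by
    intro h1
    apply h
    rw [mul_comm, ← nsmul_eq_mul, map_nsmul, h1, smul_zero]
  rw [coeff_mul] at h0
  obtain ⟨⟨a, b⟩, hab, hne⟩ := Finset.exists_ne_zero_of_sum_ne_zero h0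
  rw [HasAntidiagonal.mem_antidiagonal] at hab
  have ha : coeff a (tt ^ i) ≠ 0 := left_ne_zero_of_mul hne
  have hb : coeff b ((ex 9 DD) ^ k) ≠ 0 := right_ne_zero_of_mul hne
  have ha' := hTGR.2.2.2.1 i a ha
  have hb' : 9 ∣ b := by
    by_contra hb9
    apply hb
    rw [ex_eq (by norm_num : (9 : ℕ) ≠ 0), ← map_pow, PowerSeries.coeff_expand, if_neg hb9]
  simp only at hab
  omega

/-- The part of `DD ^ j` with exponents prime to 3. -/
theorem P3D (hUID : UID_stmt) (hTGR : TGR_stmt) (hME3 : ME3_stmt) : P3D_stmt := by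
  obtain ⟨hu1, hu2, hu3⟩ := hUID
  have hD : DD = tt + ex 9 DD := hME3.1
  refine ⟨?_, P3D_add, ?_⟩
  · have h1 : P3 tt = tt := by
      rw [P3D_cls tt 1 (fun m hm => by
        have := P3D_prod hTGR 1 0 1 m (by simpa using hm)
        exact this)]
      rw [if_neg (by norm_num)]
    have h2 : P3 (ex 9 DD) = 0 := by
      rw [P3D_cls (ex 9 DD) 0 (fun m hm => by
        have := P3D_prod hTGR 0 1 1 m (by simpa using hm)
        exact this)]
      rw [if_pos (by norm_num)]
    rw [hD, P3D_add, h1, h2, add_zero]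
  · intro j hj
    refine ⟨∑ i ∈ (Finset.range (j + 1)).filter (fun i => ¬ 3 ∣ i),
      ((j.choose i : ℕ) : Polynomial (ZMod 2)) * ((Polynomial.X + Polynomial.X ^ 4) ^ j *
        Polynomial.X ^ (8 * (j - i))), ?_, ?_⟩
    · apply Polynomial.natDegree_sum_le_of_forall_le
      intro i hi
      rw [Finset.mem_filter, Finset.mem_range] at hi
      have hi0 : 1 ≤ i := by
        rcases Nat.eq_zero_or_pos i with h | h
        · subst h
          exact absurd (dvd_zero 3) hi.2
        · exact h
      have h1 : ((Polynomial.X + Polynomial.X ^ 4 : Polynomial (ZMod 2)) ^ j).natDegree ≤ j * 4 := by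
        refine Polynomial.natDegree_pow_le_of_le j ?_
        refine (Polynomial.natDegree_add_le _ _).trans ?_
        rw [Polynomial.natDegree_X, Polynomial.natDegree_X_pow]
        norm_num
      have h2 : ((Polynomial.X : Polynomial (ZMod 2)) ^ (8 * (j - i))).natDegree ≤ 8 * (j - i) := by
        rw [Polynomial.natDegree_X_pow]
      have h3 := Polynomial.natDegree_mul_le_of_le h1 h2
      have h4 := Polynomial.natDegree_mul_le_of_le
        (Polynomial.natDegree_natCast (R := ZMod 2) (j.choose i)).le h3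
      refine h4.trans ?_
      omega
    · have h1 : DD ^ j = ∑ i ∈ Finset.range (j + 1), tt ^ i * (ex 9 DD) ^ (j - i) * (j.choose i : FF) := by
        conv_lhs => rw [hD]
        rw [add_pow]
      rw [h1, P3D_sum, map_sum, Finset.sum_filter]
      refine Finset.sum_congr rfl ?_
      intro i hi
      rw [Finset.mem_range] at hi
      rw [P3D_cls _ i (fun m hm => P3D_prod hTGR i (j - i) (j.choose i) m hm)]
      by_cases h3 : 3 ∣ i
      · rw [if_neg (not_not.mpr h3), if_pos h3]
      · rw [if_pos h3, if_neg h3]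
        simp only [map_mul, map_pow, map_add, Polynomial.aeval_X, map_natCast]
        rw [← hu1, hu2, mul_pow, ← pow_mul]
        have h5 : tt ^ j = tt ^ i * tt ^ (j - i) := by
          rw [← pow_add]
          congr 1
          omega
        rw [h5]
        ring

end Pool.Agent.LQ
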